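import Pool.Agent.Helper20.RL.St3

set_option autoImplicit false

open MeasureTheory Set Filter Topology
open scoped ENNReal RealInnerProductSpace

namespace Pool.Agent.Helper2.RL

open Pool.Agent.Helper68.LM (Pl BB Bd Av HL ft fm DQ)
open Pool.Agent.Helper20.RG Pool.Agent.Helper20.RL

theorem lap_ck_mono {E : Set Pl} {D : ℝ} {k k' : ℤ} (h : k ≤ k') : Ck E D k ⊆ Ck E D k' := by
  rintro z ⟨h1, h2⟩
  exact ⟨h1, fun j hj => h2 j (h.trans hj)⟩

theorem lap_bb_ind {F : Set Pl} (hF : BM F) : BB (F.indicator 1) := by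
  obtain ⟨h1, h2⟩ := hF
  obtain ⟨r, hr⟩ := h2.subset_closedBall (0 : Pl)
  refine ⟨measurable_one.indicator h1, max 1 r, fun x => ?_, fun x hx => ?_⟩
  · by_cases hxF : x ∈ F
    · simp [hxF]
    · simp [hxF]
  · apply indicator_of_notMem
    intro hxF
    have := hr hxF
    rw [Metric.mem_closedBall, dist_zero_right] at this
    have h3 := le_max_right (1 : ℝ) r
    linarith

theorem lap_bb_add {g h : Pl → ℝ} (a : ℝ) (hg : BB g) (hh : BB h) :
    BB (fun y => a * g y + h y) := by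
  obtain ⟨g1, K1, g2, g3⟩ := hg
  obtain ⟨h1, K2, h2, h3⟩ := hh
  refine ⟨(g1.const_mul a).add h1, |a| * |K1| + |K2| + |K1|, fun x => ?_, fun x hx => ?_⟩
  · have e1 : |g x| ≤ |K1| := (g2 x).trans (le_abs_self _)
    have e2 : |h x| ≤ |K2| := (h2 x).trans (le_abs_self _)
    calc |a * g x + h x| ≤ |a * g x| + |h x| := abs_add_le _ _
      _ = |a| * |g x| + |h x| := by rw [abs_mul]
      _ ≤ |a| * |K1| + |K2| := add_le_add (mul_le_mul_of_nonneg_left e1 (abs_nonneg a)) e2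
      _ ≤ |a| * |K1| + |K2| + |K1| := by have := abs_nonneg K1; linarith
  · have e0 : 0 ≤ |a| * |K1| := mul_nonneg (abs_nonneg _) (abs_nonneg _)
    have e1 : K1 < ‖x‖ := by
      have := le_abs_self K1
      have := abs_nonneg K2
      linarith
    have e2 : K2 < ‖x‖ := by
      have := le_abs_self K2
      have := abs_nonneg K1
      linarith
    show a * g x + h x = 0
    rw [g3 x e1, h3 x e2]; simp

theorem lap_bb_indicator {g : Pl → ℝ} {S : Set Pl} (hS : MeasurableSet S) (hg : BB g) :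
    BB (S.indicator g) := by
  obtain ⟨g1, K, g2, g3⟩ := hg
  have hK : 0 ≤ K := (abs_nonneg _).trans (g2 0)
  refine ⟨g1.indicator hS, K, fun x => ?_, fun x hx => ?_⟩
  · by_cases hx : x ∈ S
    · simpa [hx] using g2 x
    · simpa [hx] using hK
  · by_cases hxS : x ∈ S
    · simpa [hxS] using g3 x hx
    · simp [hxS]

/-- locality of `Y` -/
theorem lap_loc (hPT : StPT) (hMEA : StMEA) {s : ℝ} (hs : |s| ≤ 1) {c : Pl} {R : ℝ} (hc : ‖c‖ ≤ R)
    (m u : ℕ) (k : ℤ) (x : Pl) (g : Pl → ℝ) :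
    Y s c m (1 / (2 : ℝ) ^ u) k g x =
      Y s c m (1 / (2 : ℝ) ^ u) k ((Sq x ((R + 3) * (2 : ℝ) ^ k)).indicator g) x := by
  have hb : ∀ᵐ w ∂bx, ‖w‖ ≤ 1 := by
    have h := hMEA.1.1.1
    have h2 : ∀ᵐ w ∂bx, w ∈ Metric.closedBall (0 : Pl) 1 := by
      rw [ae_iff]
      exact h
    filter_upwards [h2] with w hw
    simpa using hw
  have hsg : ∀ᵐ y ∂(sg s), ‖y‖ ≤ 1 := by
    have h := (hMEA.2.1 s hs).1.1
    have h2 : ∀ᵐ w ∂(sg s), w ∈ Metric.closedBall (0 : Pl) 1 := by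
      rw [ae_iff]
      exact h
    filter_upwards [h2] with w hw
    simpa using hw
  have h2k : (0 : ℝ) < (2 : ℝ) ^ k := zpow_pos (by norm_num) k
  unfold Y Av
  refine integral_congr_ae ?_
  filter_upwards [hsg] with y hy
  refine integral_congr_ae ?_
  filter_upwards [hb] with w hw
  symm
  apply indicator_of_mem
  set z : Pl := x - (2 : ℝ) ^ k • c - ((2 : ℝ) ^ k * (1 / (2 : ℝ) ^ u)) • y -
    (2 * (2 : ℝ) ^ (k - (m : ℤ))) • w with hz
  have hu : (1 : ℝ) / (2 : ℝ) ^ u ≤ 1 := by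
    rw [div_le_one (by positivity)]
    exact one_le_pow₀ (by norm_num)
  have hu0 : (0 : ℝ) ≤ 1 / (2 : ℝ) ^ u := by positivity
  have hm : (2 : ℝ) ^ (k - (m : ℤ)) ≤ (2 : ℝ) ^ k := by
    apply zpow_le_zpow_right₀ (by norm_num)
    omega
  have hm0 : (0 : ℝ) < (2 : ℝ) ^ (k - (m : ℤ)) := zpow_pos (by norm_num) _
  have hzx : ‖z - x‖ ≤ (R + 3) * (2 : ℝ) ^ k := by
    have e1 : z - x = -((2 : ℝ) ^ k • c + ((2 : ℝ) ^ k * (1 / (2 : ℝ) ^ u)) • y +
        (2 * (2 : ℝ) ^ (k - (m : ℤ))) • w) := by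
      rw [hz]; abel
    rw [e1, norm_neg]
    calc ‖(2 : ℝ) ^ k • c + ((2 : ℝ) ^ k * (1 / (2 : ℝ) ^ u)) • y +
          (2 * (2 : ℝ) ^ (k - (m : ℤ))) • w‖
        ≤ ‖(2 : ℝ) ^ k • c‖ + ‖((2 : ℝ) ^ k * (1 / (2 : ℝ) ^ u)) • y‖ +
          ‖(2 * (2 : ℝ) ^ (k - (m : ℤ))) • w‖ := norm_add₃_le
      _ = (2 : ℝ) ^ k * ‖c‖ + ((2 : ℝ) ^ k * (1 / (2 : ℝ) ^ u)) * ‖y‖ +
          (2 * (2 : ℝ) ^ (k - (m : ℤ))) * ‖w‖ := by
          rw [norm_smul, norm_smul, norm_smul, Real.norm_of_nonneg h2k.le,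
            Real.norm_of_nonneg (mul_nonneg h2k.le hu0), Real.norm_of_nonneg (by positivity)]
      _ ≤ (2 : ℝ) ^ k * R + ((2 : ℝ) ^ k * 1) * 1 + (2 * (2 : ℝ) ^ k) * 1 := by
          gcongr
      _ = (R + 3) * (2 : ℝ) ^ k := by ring
  have h0 := (hPT.2.2.1 (z - x)).1
  have h1 := (hPT.2.2.1 (z - x)).2.1
  exact ⟨h0.trans hzx, h1.trans hzx⟩

/-- the volume of an affine preimage -/
theorem lap_vol (A : Set Pl) (z : Pl) (ρ : ℝ) (hρ : 0 < ρ) :
    volume {w : Pl | z - ρ • w ∈ A} = ENNReal.ofReal ((ρ ^ 2)⁻¹) * volume A := by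
  have h1 : {w : Pl | z - ρ • w ∈ A} = (fun w : Pl => (-ρ) • w) ⁻¹' ((fun v : Pl => z + v) ⁻¹' A) := by
    ext w
    simp only [mem_ofPred_eq, mem_preimage, neg_smul]
    rw [sub_eq_add_neg]
  have hne : (-ρ) ≠ 0 := by linarith
  have hfr : Module.finrank ℝ Pl = 2 := by
    show Module.finrank ℝ (EuclideanSpace ℝ (Fin 2)) = 2
    simp
  rw [h1, Measure.addHaar_preimage_smul volume hne, measure_preimage_add, hfr]
  congr 2
  rw [abs_of_nonneg (by positivity)]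
  congr 1
  ring

/-- the average over a box of the indicator of a set of small density -/
theorem lap_box (A : Set Pl) (hA : MeasurableSet A) (z : Pl) (ρ D : ℝ) (hρ : 0 < ρ) (hD : 0 ≤ D)
    (h : volume (A ∩ Sq z (ρ / 2)) ≤ ENNReal.ofReal (D * ρ ^ 2)) :
    Av bx ρ (A.indicator 1) z ≤ D := by
  set B : Set Pl := {w : Pl | z - ρ • w ∈ A} with hB
  have hcont : Continuous fun w : Pl => z - ρ • w := by fun_prop
  have hBm : MeasurableSet B := hcont.measurable hA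
  have e1 : Av bx ρ (A.indicator 1) z = ∫ w, B.indicator 1 w ∂bx := rfl
  rw [e1, integral_indicator_one hBm]
  have e2 : bx B ≤ ENNReal.ofReal D := by
    have e3 : bx B = volume (B ∩ Sq 0 (1 / 2)) := Measure.restrict_apply hBm
    rw [e3]
    have e4 : B ∩ Sq 0 (1 / 2) ⊆ {w : Pl | z - ρ • w ∈ A ∩ Sq z (ρ / 2)} := by
      rintro w ⟨h1, h2, h3⟩
      refine ⟨h1, ?_, ?_⟩
      · have e5 : (z - ρ • w) 0 - z 0 = -(ρ * w 0) := by
          simp
        rw [e5, abs_neg, abs_mul, abs_of_pos hρ]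
        have h4 : |w 0| ≤ 1 / 2 := by simpa using h2
        nlinarith
      · have e5 : (z - ρ • w) 1 - z 1 = -(ρ * w 1) := by
          simp
        rw [e5, abs_neg, abs_mul, abs_of_pos hρ]
        have h4 : |w 1| ≤ 1 / 2 := by simpa using h3
        nlinarith
    calc volume (B ∩ Sq 0 (1 / 2)) ≤ volume {w : Pl | z - ρ • w ∈ A ∩ Sq z (ρ / 2)} :=
          measure_mono e4
      _ = ENNReal.ofReal ((ρ ^ 2)⁻¹) * volume (A ∩ Sq z (ρ / 2)) := lap_vol _ z ρ hρ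
      _ ≤ ENNReal.ofReal ((ρ ^ 2)⁻¹) * ENNReal.ofReal (D * ρ ^ 2) := by gcongr
      _ = ENNReal.ofReal D := by
          rw [← ENNReal.ofReal_mul (by positivity)]
          congr 1
          field_simp
  exact ENNReal.toReal_le_of_le_ofReal hD e2

/-- the far part -/
theorem lap_far (hMEA : StMEA) {E : Set Pl} {D : ℝ} (hD : 0 < D) {K m : ℕ} (hm : m ≤ K) {s : ℝ}
    (hs : |s| ≤ 1) (c : Pl) (u : ℕ) (k : ℤ) (x : Pl)
    (hA : MeasurableSet (Ck E D (k - K - 2))) :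
    Y s c m (1 / (2 : ℝ) ^ u) k ((Ck E D (k - K - 2)).indicator 1) x ≤ D := by
  have hin : ∀ z : Pl, Av bx (2 * (2 : ℝ) ^ (k - (m : ℤ))) ((Ck E D (k - K - 2)).indicator 1) z ≤ D := by
    intro z
    have h2 : (0 : ℝ) < (2 : ℝ) ^ (k - (m : ℤ)) := zpow_pos (by norm_num) _
    refine lap_box _ hA z _ D (by positivity) hD.le ?_
    have e1 : 2 * (2 : ℝ) ^ (k - (m : ℤ)) / 2 = (2 : ℝ) ^ (k - (m : ℤ)) := by ring
    rw [e1]
    by_cases hne : (Ck E D (k - K - 2) ∩ Sq z ((2 : ℝ) ^ (k - (m : ℤ)))).Nonempty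
    · obtain ⟨z', ⟨hz1, hz2⟩, hz3, hz4⟩ := hne
      have e2 : (2 : ℝ) ^ (k - (m : ℤ) + 1) = 2 * (2 : ℝ) ^ (k - (m : ℤ)) := by
        rw [zpow_add_one₀ (by norm_num)]; ring
      have hsub : Ck E D (k - K - 2) ∩ Sq z ((2 : ℝ) ^ (k - (m : ℤ))) ⊆
          E ∩ Sq z' ((2 : ℝ) ^ (k - (m : ℤ) + 1)) := by
        rintro y ⟨hy1, hy2, hy3⟩
        refine ⟨hy1.1, ?_, ?_⟩
        · rw [e2]
          calc |y 0 - z' 0| = |(y 0 - z 0) - (z' 0 - z 0)| := by congr 1; ring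
            _ ≤ |y 0 - z 0| + |z' 0 - z 0| := abs_sub _ _
            _ ≤ 2 * (2 : ℝ) ^ (k - (m : ℤ)) := by linarith
        · rw [e2]
          calc |y 1 - z' 1| = |(y 1 - z 1) - (z' 1 - z 1)| := by congr 1; ring
            _ ≤ |y 1 - z 1| + |z' 1 - z 1| := abs_sub _ _
            _ ≤ 2 * (2 : ℝ) ^ (k - (m : ℤ)) := by linarith
      refine (measure_mono hsub).trans ((hz2 (k - (m : ℤ) + 1) (by omega)).trans (le_of_eq ?_))
      congr 2
      rw [← e2, ← zpow_natCast, ← zpow_mul, mul_comm, zpow_mul]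
      norm_num
    · rw [not_nonempty_iff_eq_empty.1 hne, measure_empty]
      exact zero_le
  unfold Y
  have hnn : ∀ z : Pl, 0 ≤ Av bx (2 * (2 : ℝ) ^ (k - (m : ℤ))) ((Ck E D (k - K - 2)).indicator 1) z := by
    intro z
    exact integral_nonneg fun w => indicator_nonneg (fun _ _ => zero_le_one) _
  have hone := (hMEA.2.1 s hs).2
  have : IsProbabilityMeasure (sg s) := ⟨hone⟩
  calc Av (sg s) ((2 : ℝ) ^ k * (1 / (2 : ℝ) ^ u))
        (Av bx (2 * (2 : ℝ) ^ (k - (m : ℤ))) ((Ck E D (k - K - 2)).indicator 1)) (x - (2 : ℝ) ^ k • c)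
      ≤ ∫ _y, D ∂(sg s) := by
        unfold Av
        refine integral_mono_of_nonneg (Eventually.of_forall fun y => hnn _) (integrable_const D)
          (Eventually.of_forall fun y => hin _)
    _ = D := by simp

/-- the age decomposition -/
theorem lap_age {E : Set Pl} {D : ℝ} {K I : ℕ} {k : ℤ} (hI : K + 3 ≤ 2 ^ I) {z : Pl}
    (h1 : z ∈ Ck E D k) (h2 : z ∉ Ck E D (k - K - 2)) :
    ∃ i ∈ Finset.range (I + 1), z ∈ Fa E D i (k / 2 ^ i) := by
  classical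
  have hex : ∃ a : ℕ, z ∉ Ck E D (k - a - 1) := ⟨K + 1, by
    have : k - ((K + 1 : ℕ) : ℤ) - 1 = k - K - 2 := by push_cast; ring
    rw [this]; exact h2⟩
  set α := Nat.find hex with hα
  have hα1 : z ∉ Ck E D (k - α - 1) := Nat.find_spec hex
  have hα2 : α ≤ K + 1 := Nat.find_min' hex (by
    have : k - ((K + 1 : ℕ) : ℤ) - 1 = k - K - 2 := by push_cast; ring
    rw [this]; exact h2)
  have hα3 : z ∈ Ck E D (k - α) := by
    rcases Nat.eq_zero_or_pos α with h0 | h0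
    · rw [h0]; simpa using h1
    · have h3 := Nat.find_min hex (m := α - 1) (by omega)
      rw [not_not] at h3
      have : k - ((α - 1 : ℕ) : ℤ) - 1 = k - α := by
        push_cast [Nat.cast_sub h0]; ring
      rwa [this] at h3
  rcases Nat.eq_zero_or_pos α with h0 | h0
  · refine ⟨0, by simp, ?_⟩
    rw [h0] at hα1 hα3
    simp only [Nat.cast_zero, sub_zero] at hα1 hα3
    refine ⟨?_, fun h => hα1 (lap_ck_mono ?_ h)⟩
    · simpa using hα3
    · simp
  · set i := Nat.log 2 α with hi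
    have hi1 : 2 ^ i ≤ α := Nat.pow_log_le_self 2 (by omega)
    have hi2 : α < 2 ^ (i + 1) := Nat.lt_pow_succ_log_self (by norm_num) α
    have hi3 : i < I := by
      by_contra hcon
      push Not at hcon
      have : 2 ^ I ≤ 2 ^ i := Nat.pow_le_pow_right (by norm_num) hcon
      omega
    refine ⟨i, by rw [Finset.mem_range]; omega, ?_⟩
    have hi1' : (2 : ℤ) ^ i ≤ α := by exact_mod_cast hi1
    have hi2' : (α : ℤ) < 2 * 2 ^ i := by
      have : α < 2 * 2 ^ i := by rw [pow_succ] at hi2; omega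
      exact_mod_cast this
    have hp : (0 : ℤ) < 2 ^ i := by positivity
    have hd1 : k / 2 ^ i * 2 ^ i ≤ k := Int.ediv_mul_le k hp.ne'
    have hd2 : k < (k / 2 ^ i + 1) * 2 ^ i := Int.lt_ediv_add_one_mul_self k hp
    refine ⟨lap_ck_mono ?_ hα3, fun h => hα1 (lap_ck_mono ?_ h)⟩
    · nlinarith
    · nlinarith

theorem hLAP (hPT : StPT) (hMEA : StMEA) (hYB : StYB) (hLAM : StLAM) : StLAP := by
  intro E D R Cf K I s c m u x k hE hD hs hc hm _hu hR hI hLoc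
  obtain ⟨a1, a2, _, _⟩ := hLAM E D hE hD
  have h2k : (0 : ℝ) < (2 : ℝ) ^ k := zpow_pos (by norm_num) k
  have hR0 : 0 ≤ R := (norm_nonneg c).trans hc
  have hℓ : (0 : ℝ) < 1 / (2 : ℝ) ^ u := by positivity
  set S := Sq x ((R + 3) * (2 : ℝ) ^ k) with hS
  have hSm : MeasurableSet S := (hPT.2.2.2.2.2.2.2 x ((R + 3) * (2 : ℝ) ^ k) (by positivity)).1
  set far := Ck E D (k - K - 2) with hfar
  have hfarBM : BM far := ⟨a1 _, hE.2.subset (fun z hz => hz.1)⟩
  -- the pointwise bound on `S`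
  have hpt : ∀ z ∈ E ∩ S, z ∈ Ck E D k := by
    rintro z ⟨hzE, hz0, hz1⟩
    refine ⟨hzE, fun k' hk' => ?_⟩
    have h2k' : (0 : ℝ) < (2 : ℝ) ^ k' := zpow_pos (by norm_num) k'
    have hkk : (2 : ℝ) ^ k ≤ (2 : ℝ) ^ k' := zpow_le_zpow_right₀ (by norm_num) hk'
    have hsub : E ∩ Sq z ((2 : ℝ) ^ k') ⊆ E ∩ Sq x (Cf * (2 : ℝ) ^ k') := by
      rintro y ⟨hyE, hy0, hy1⟩
      have hb : (R + 3) * (2 : ℝ) ^ k + (2 : ℝ) ^ k' ≤ Cf * (2 : ℝ) ^ k' := by
        have e1 : (R + 3) * (2 : ℝ) ^ k ≤ (R + 3) * (2 : ℝ) ^ k' := by gcongr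
        have e2 : (R + 10) * (2 : ℝ) ^ k' ≤ Cf * (2 : ℝ) ^ k' := by gcongr
        nlinarith
      refine ⟨hyE, ?_, ?_⟩
      · calc |y 0 - x 0| = |(y 0 - z 0) + (z 0 - x 0)| := by congr 1; ring
          _ ≤ |y 0 - z 0| + |z 0 - x 0| := abs_add_le _ _
          _ ≤ Cf * (2 : ℝ) ^ k' := by linarith
      · calc |y 1 - x 1| = |(y 1 - z 1) + (z 1 - x 1)| := by congr 1; ring
          _ ≤ |y 1 - z 1| + |z 1 - x 1| := abs_add_le _ _
          _ ≤ Cf * (2 : ℝ) ^ k' := by linarith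
    have hSqm : MeasurableSet (Sq x (Cf * (2 : ℝ) ^ k')) :=
      (hPT.2.2.2.2.2.2.2 x (Cf * (2 : ℝ) ^ k') (by
        have : 0 ≤ Cf := by linarith
        positivity)).1
    have hint : ∫⁻ y in Sq x (Cf * (2 : ℝ) ^ k'), ‖E.indicator (1 : Pl → ℝ) y‖ₑ =
        volume (E ∩ Sq x (Cf * (2 : ℝ) ^ k')) := by
      have e1 : ∀ y : Pl, ‖E.indicator (1 : Pl → ℝ) y‖ₑ = E.indicator (fun _ => (1 : ℝ≥0∞)) y := by
        intro y
        by_cases hy : y ∈ E
        · simp [hy]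
        · simp [hy]
      simp_rw [e1]
      rw [lintegral_indicator_const hE.1, one_mul, Measure.restrict_apply hE.1]
    calc volume (E ∩ Sq z ((2 : ℝ) ^ k')) ≤ volume (E ∩ Sq x (Cf * (2 : ℝ) ^ k')) := measure_mono hsub
      _ = ∫⁻ y in Sq x (Cf * (2 : ℝ) ^ k'), ‖E.indicator (1 : Pl → ℝ) y‖ₑ := hint.symm
      _ ≤ ENNReal.ofReal (D * (4 : ℝ) ^ k') := hLoc k'
  set g : ℕ → Pl → ℝ := fun i => (Fa E D i (k / 2 ^ i)).indicator 1 with hg
  have hgBB : ∀ i, BB (g i) := fun i => lap_bb_ind (a2 i _).1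
  have hg0 : ∀ i y, 0 ≤ g i y := fun i y => indicator_nonneg (fun _ _ => zero_le_one) _
  -- sums
  set G : ℕ → Pl → ℝ := fun n y => far.indicator 1 y + ∑ i ∈ Finset.range n, g i y with hG
  have hGsucc : ∀ n, G (n + 1) = fun y => 1 * g n y + G n y := by
    intro n
    funext y
    rw [hG]
    simp only [Finset.sum_range_succ]
    ring
  have hG0 : G 0 = far.indicator 1 := by
    funext y; rw [hG]; simp
  have hGBB : ∀ n, BB (G n) := by
    intro n
    induction n with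
    | zero => rw [hG0]; exact lap_bb_ind hfarBM
    | succ n ih => rw [hGsucc]; exact lap_bb_add 1 (hgBB n) ih
  have hYG : ∀ n, Y s c m (1 / (2 : ℝ) ^ u) k (G n) x =
      Y s c m (1 / (2 : ℝ) ^ u) k (far.indicator 1) x +
        ∑ i ∈ Finset.range n, Y s c m (1 / (2 : ℝ) ^ u) k (g i) x := by
    intro n
    induction n with
    | zero => rw [hG0]; simp
    | succ n ih =>
      rw [hGsucc, (hYB s c m _ k (g n) hs hℓ (hgBB n)).2.2.2.2 1 (G n) (hGBB n) x, ih,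
        Finset.sum_range_succ]
      ring
  have hEBB : BB (E.indicator 1) := lap_bb_ind hE
  -- the difference
  set H : Pl → ℝ := fun y => (-1) * E.indicator 1 y + G (I + 1) y with hH
  have hHBB : BB H := lap_bb_add (-1) hEBB (hGBB (I + 1))
  have hYH : Y s c m (1 / (2 : ℝ) ^ u) k H x = (-1) * Y s c m (1 / (2 : ℝ) ^ u) k (E.indicator 1) x +
      Y s c m (1 / (2 : ℝ) ^ u) k (G (I + 1)) x :=
    (hYB s c m _ k (E.indicator 1) hs hℓ hEBB).2.2.2.2 (-1) (G (I + 1)) (hGBB (I + 1)) x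
  have hHS : ∀ y, 0 ≤ S.indicator H y := by
    intro y
    by_cases hyS : y ∈ S
    · rw [indicator_of_mem hyS]
      show 0 ≤ (-1) * E.indicator 1 y + G (I + 1) y
      have hsum0 : 0 ≤ ∑ i ∈ Finset.range (I + 1), g i y := Finset.sum_nonneg fun i _ => hg0 i y
      have hf0 : 0 ≤ far.indicator (1 : Pl → ℝ) y := indicator_nonneg (fun _ _ => zero_le_one) _
      have hGe : G (I + 1) y = far.indicator 1 y + ∑ i ∈ Finset.range (I + 1), g i y := rfl
      by_cases hyE : y ∈ E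
      · rw [indicator_of_mem hyE, hGe]
        by_cases hyf : y ∈ far
        · rw [indicator_of_mem hyf]
          simp only [Pi.one_apply]
          linarith
        · obtain ⟨i, hi, hyi⟩ := lap_age hI (hpt y ⟨hyE, hyS⟩) hyf
          have h3 : g i y ≤ ∑ i ∈ Finset.range (I + 1), g i y :=
            Finset.single_le_sum (f := fun i => g i y) (fun j _ => hg0 j y) hi
          have h4 : g i y = 1 := by
            rw [hg]
            exact indicator_of_mem hyi _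
          simp only [Pi.one_apply]
          linarith
      · rw [indicator_of_notMem hyE, hGe]
        linarith
    · rw [indicator_of_notMem hyS]
  have hY0 : 0 ≤ Y s c m (1 / (2 : ℝ) ^ u) k H x := by
    rw [lap_loc hPT hMEA hs hc m u k x H]
    exact (hYB s c m _ k (S.indicator H) hs hℓ (lap_bb_indicator hSm hHBB)).2.2.1 hHS x
  have hfarle := lap_far hMEA (E := E) hD hm hs c u k x (a1 (k - K - 2))
  rw [hYH, hYG] at hY0
  have hfin : Y s c m (1 / (2 : ℝ) ^ u) k (far.indicator 1) x ≤ D := hfarle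
  linarith

end Pool.Agent.Helper2.RL
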